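import Pool.Agent.Lib.MP_b6786a_co.Trapezoid

/-!
# Counting left GOGAm and right Magog trapezoids
-/

set_option autoImplicit false

namespace Pool.Agent.Lib.MP_b6786a_co

/-- the identity tail -/
def idT : Row := fun b => (b : ℤ)

/-- Lists attached to left GOGAm trapezoids. -/
def LT (n k : ℕ) : Set (List Row) :=
  {xs | xs.length = k ∧ TL 0 (n + 1) idT 1 xs ∧ ∀ b : ℕ, 1 ≤ b → V xs b ≤ (b : ℤ)}

/-- Lists attached to right Magog trapezoids. -/
def RT (n k : ℕ) : Set (List Row) :=
  {gs | gs.length = k ∧ YL (n + 1) idT 1 gs ∧ ∀ b : ℕ, 1 ≤ b → rw' gs 0 b ≤ (b : ℤ)}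

theorem Phi_bijOn {n k : ℕ} (hk : 1 ≤ k) : Set.BijOn (Phi k) (LT n k) (RT n k) := by
  refine ⟨?_, ?_, ?_⟩
  · rintro xs ⟨h1, h2, h3⟩
    obtain ⟨a1, a2⟩ := Phi_spec k (n + 1) idT 1 xs h1 h2
    refine ⟨length_Phi k xs, a1, ?_⟩
    intro b hb
    obtain ⟨k', rfl⟩ : ∃ k', k = k' + 1 := ⟨k - 1, by omega⟩
    exact h3 b hb
  · rintro xs ⟨h1, h2, h3⟩ ys ⟨g1, g2, g3⟩ hxy
    obtain ⟨a1, a2⟩ := Phi_spec k (n + 1) idT 1 xs h1 h2
    obtain ⟨b1, b2⟩ := Phi_spec k (n + 1) idT 1 ys g1 g2
    rw [← a2, ← b2, hxy]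
  · rintro gs ⟨h1, h2, h3⟩
    obtain ⟨a1, a2⟩ := Psi_spec gs (n + 1) idT 1 h2
    refine ⟨Psi gs, ⟨?_, a1, ?_⟩, ?_⟩
    · rw [length_Psi, h1]
    · intro b hb
      cases gs with
      | nil => simp at h1; omega
      | cons p gs =>
          rw [V_Psi h2]
          exact h3 b hb
    · rw [← h1]; exact a2

/-! ### left side -/

theorem ofL_toL {n k : ℕ} (X : Arr) {i j : ℕ} (h1 : 1 ≤ j) (h2 : j ≤ i) (h3 : i ≤ n)
    (h4 : j ≤ k) : ofL n k (toL n k X) i j = X i j := by
  simp only [ofL]
  rw [min_eq_left h4, toL, rw'_map (show j - 1 < k by omega), rowL_mid X (by omega) (by omega)]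
  congr 1 <;> omega

theorem toL_congr {n k : ℕ} {X Y : Arr} (hk : k ≤ n)
    (h : ∀ i j, 1 ≤ j → j ≤ i → i ≤ n → j ≤ k → X i j = Y i j) : toL n k X = toL n k Y := by
  apply List.map_congr_left
  intro a ha
  rw [List.mem_range] at ha
  funext b
  by_cases hb0 : b = 0
  · subst hb0; rw [rowL_zero, rowL_zero]
  · rcases Nat.lt_or_ge n b with hb | hb
    · rw [rowL_big X a hb, rowL_big Y a hb]
    · by_cases hc : b ≤ a
      · rw [rowL_low X (by omega) hb hc, rowL_low Y (by omega) hb hc]
        exact h _ _ (by omega) (by omega) le_rfl (by omega)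
      · rw [rowL_mid X hb (by omega), rowL_mid Y hb (by omega)]
        exact h _ _ (by omega) (by omega) (by omega) (by omega)

theorem diag_chain {xs : List Row} {M : ℕ} {t : Row} {κ : ℤ} (h : TL 0 M t κ xs) :
    ∀ d i, i + d < xs.length → ∀ b, b ≤ i + 1 → rw' xs i b = rw' xs (i + d) b
  | 0, i, _, b, _ => rfl
  | d + 1, i, h1, b, hb => by
      rw [diag_chain h d i (by omega) b hb]
      have := (((TL_iff xs 0).mp h).2 (i + d) (by omega)).2 b (by omega)
      exact this

theorem toL_ofL {n k : ℕ} {xs : List Row} (hk : k ≤ n) (hlen : xs.length = k)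
    (h : TL 0 (n + 1) idT 1 xs) : toL n k (ofL n k xs) = xs := by
  apply list_ext_rw'
  · simp [toL, hlen]
  · intro a ha
    have ha' : a < k := by simpa [toL] using ha
    rw [toL, rw'_map ha']
    obtain ⟨h1, h2⟩ := (TL_iff xs 0).mp h
    obtain ⟨c1, c2, c3⟩ := h1 a (by omega)
    funext b
    by_cases hb0 : b = 0
    · subst hb0; rw [rowL_zero, c2]
    · rcases Nat.lt_or_ge n b with hb | hb
      · rw [rowL_big _ a hb, c3 b (by omega)]
        rfl
      · by_cases hc : b ≤ a
        · rw [rowL_low _ (by omega) hb hc]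
          simp only [ofL]
          rw [min_eq_left (show b ≤ k by omega), show n + b - n = b by omega]
          have := diag_chain h (a - (b - 1)) (b - 1) (by omega) b (by omega)
          rw [this]
          congr 1
          omega
        · rw [rowL_mid _ hb (by omega)]
          simp only [ofL]
          rw [min_eq_left (show a + 1 ≤ k by omega)]
          congr 1
          omega

theorem rw'_pos {xs : List Row} {M : ℕ} {t : Row} (h : TL 0 M t 1 xs) {i : ℕ}
    (hi : i < xs.length) : ∀ b, 1 ≤ rw' xs i b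
  | 0 => by rw [(((TL_iff xs 0).mp h).1 i hi).2.1]
  | b + 1 => (rw'_pos h hi b).trans ((((TL_iff xs 0).mp h).1 i hi).1 b)

theorem ofL_isGT {n k : ℕ} {xs : List Row} (hk1 : 1 ≤ k) (hlen : xs.length = k)
    (h : TL 0 (n + 1) idT 1 xs) : IsGT n (ofL n k xs) := by
  obtain ⟨h1, h2⟩ := (TL_iff xs 0).mp h
  refine ⟨?_, ?_⟩
  · intro i j hj1 hj2 hi
    have := rw'_pos h (show min j k - 1 < xs.length by omega) (n + j - i)
    simp only [ofL]
    omega
  · intro i j hj1 hj2 hi
    simp only [ofL]
    refine ⟨?_, ?_⟩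
    · have := (h1 (min j k - 1) (by omega)).1 (n + j - (i + 1))
      rwa [show n + j - (i + 1) + 1 = n + j - i by omega] at this
    · rw [show n + (j + 1) - (i + 1) = n + j - i by omega]
      by_cases hjk : j < k
      · have := (h2 (j - 1) (by omega)).1 (n + j - i)
        rw [show min j k - 1 = j - 1 by omega, show min (j + 1) k - 1 = j - 1 + 1 by omega]
        exact this
      · rw [show min j k - 1 = min (j + 1) k - 1 by omega]

theorem ofL_top {n k : ℕ} {xs : List Row} (hk1 : 1 ≤ k) (hkn : k ≤ n) (hlen : xs.length = k)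
    (h : TL 0 (n + 1) idT 1 xs) : ofL n k xs n n ≤ n + 1 := by
  obtain ⟨h1, h2⟩ := (TL_iff xs 0).mp h
  obtain ⟨c1, c2, c3⟩ := h1 (k - 1) (by omega)
  simp only [ofL]
  rw [show min n k - 1 = k - 1 by omega, show n + n - n = n by omega]
  have a := c1 n
  rw [c3 (n + 1) le_rfl] at a
  simpa [idT] using a

theorem ofL_gogam {n k : ℕ} {xs : List Row} (hk1 : 1 ≤ k) (hkn : k ≤ n)
    (h : xs ∈ LT n k) : IsGOGAm n (ofL n k xs) := by
  obtain ⟨hlen, hT, hV⟩ := h
  have hGT := ofL_isGT hk1 hlen hT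
  refine ⟨hGT, schutz_isGT n _ hGT le_rfl, ?_⟩
  intro j hj1 hj2
  rw [schutz_diag n _ j hj1 hj2]
  have key := (V_le_VB (k := k) hGT hk1 hkn (ofL_top hk1 hkn hlen hT) (k - 1) 0 (by omega) j
    (by omega) hj2).2 (by
      intro i j hj1 hj2 hi
      simp only [ofL]
      rw [show min j k - 1 = min (j - 1) k - 1 by omega,
        show n + (j - 1) - (i - 1) = n + j - i by omega])
  rw [List.drop_zero, toL_ofL hkn hlen hT, Nat.sub_zero] at key
  rw [← key]
  exact hV j hj1

theorem toL_mem {n k : ℕ} {X : Arr} (hk1 : 1 ≤ k) (hkn : k ≤ n) (hX : IsGOGAm n X) :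
    toL n k X ∈ LT n k := by
  obtain ⟨hGT, hM⟩ := hX
  have htop : X n n ≤ n := by
    have := hM.2 n (by omega) le_rfl
    rwa [schutz_of_ge n X n n le_rfl] at this
  have hT := toL_TL (k := k) hGT hkn (by omega)
  have hlen : (toL n k X).length = k := by simp [toL]
  refine ⟨hlen, hT, ?_⟩
  intro b hb
  rcases Nat.lt_or_ge n b with hb' | hb'
  · obtain ⟨k', rfl⟩ : ∃ k', k = k' + 1 := ⟨k - 1, by omega⟩
    have e : toL n (k' + 1) X = rowL n X 0 :: (toL n (k' + 1) X).drop 1 := by
      have := toL_drop (n := n) (k := k' + 1) X (a := 0) (by omega)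
      simpa using this
    rw [e] at hT ⊢
    rw [V_tail _ _ _ _ _ _ hT b (by omega)]
  · have key := (V_le_VB (k := k) hGT hk1 hkn (by omega) (k - 1) 0 (by omega) b
      (by omega) hb').1
    rw [List.drop_zero, Nat.sub_zero] at key
    have h2 := hM.2 b hb hb'
    rw [schutz_diag n _ b hb hb'] at h2
    omega

/-- The left trapezoid attached to a list. -/
def resL (n k : ℕ) (xs : List Row) : leftIdx n k → ℤ := fun p => ofL n k xs p.1.1 p.1.2

theorem resL_bijOn {n k : ℕ} (hk1 : 1 ≤ k) (hkn : k ≤ n) :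
    Set.BijOn (resL n k) (LT n k) (trapezoids (IsGOGAm n) (leftIdx n k)) := by
  refine ⟨?_, ?_, ?_⟩
  · intro xs h
    exact ⟨ofL n k xs, ofL_gogam hk1 hkn h, fun p => rfl⟩
  · intro xs hx ys hy hxy
    rw [← toL_ofL hkn hx.1 hx.2.1, ← toL_ofL hkn hy.1 hy.2.1]
    apply toL_congr hkn
    intro i j h1 h2 h3 h4
    exact congrFun hxy ⟨(i, j), h1, h2, h3, h4⟩
  · rintro T ⟨X, hX, hT⟩
    refine ⟨toL n k X, toL_mem hk1 hkn hX, ?_⟩
    funext p
    obtain ⟨⟨i, j⟩, h1, h2, h3, h4⟩ := p
    rw [hT]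
    exact ofL_toL X h1 h2 h3 h4

/-! ### right side -/

/-- Row `c` of the list attached to an array (right trapezoids). -/
def rowR (n : ℕ) (X : Arr) (c : ℕ) : Row := fun b =>
  if b = 0 then 1 else if n < b then (b : ℤ) else if b + c ≤ n then X (b + c) b else X n b

/-- The list attached to an array (right trapezoids). -/
def toR (n k : ℕ) (X : Arr) : List Row := (List.range k).map (rowR n X)

/-- The array attached to a list (right trapezoids). -/
def ofR (k : ℕ) (gs : List Row) : Arr := fun i j => if i - j < k then rw' gs (i - j) j else 1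

theorem rowR_zero (n : ℕ) (X : Arr) (c : ℕ) : rowR n X c 0 = 1 := by simp [rowR]

theorem rowR_big {n : ℕ} (X : Arr) (c : ℕ) {b : ℕ} (h : n < b) : rowR n X c b = b := by
  simp only [rowR]; rw [if_neg (by omega), if_pos h]

theorem rowR_in {n : ℕ} (X : Arr) {c b : ℕ} (h1 : 1 ≤ b) (h3 : b + c ≤ n) :
    rowR n X c b = X (b + c) b := by
  simp only [rowR]; rw [if_neg (by omega), if_neg (by omega), if_pos h3]

theorem rowR_out {n : ℕ} (X : Arr) {c b : ℕ} (h1 : 1 ≤ b) (h2 : b ≤ n) (h3 : n ≤ b + c) :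
    rowR n X c b = X n b := by
  by_cases h : b + c = n
  · rw [rowR_in X h1 (by omega), h]
  · simp only [rowR]; rw [if_neg (by omega), if_neg (by omega), if_neg (by omega)]

theorem toR_mem {n k : ℕ} {X : Arr} (hk1 : 1 ≤ k) (hkn : k ≤ n) (hX : IsMagog n X) :
    toR n k X ∈ RT n k := by
  obtain ⟨hG, hM⟩ := hX
  have hlen : (toR n k X).length = k := by simp [toR]
  have hr : ∀ i, i < k → rw' (toR n k X) i = rowR n X i := fun i hi => rw'_map hi
  refine ⟨hlen, ?_, ?_⟩
  · rw [YL_iff, hlen]
    refine ⟨?_, ?_, ?_⟩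
    · intro i hi
      rw [hr i hi]
      refine ⟨?_, rowR_zero n X i⟩
      intro b
      by_cases hb0 : b = 0
      · subst hb0
        rw [rowR_zero]
        by_cases hc : 1 + i ≤ n
        · rw [rowR_in X (by omega) (by omega)]
          have := hG.1 (0 + 1 + i) (0 + 1) (by omega) (by omega) (by omega)
          omega
        · rw [rowR_out X (by omega) (by omega) (by omega)]
          have := hG.1 n (0 + 1) (by omega) (by omega) le_rfl
          omega
      · rcases Nat.lt_or_ge n b with hb | hb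
        · rw [rowR_big X i hb, rowR_big X i (by omega)]
          push_cast; omega
        · rcases Nat.eq_or_lt_of_le hb with hb' | hb'
          · subst hb'
            rw [rowR_big X i (show b < b + 1 by omega), rowR_out X (by omega) le_rfl (by omega)]
            have := hM b (by omega) le_rfl
            push_cast; omega
          · by_cases hc : b + 1 + i ≤ n
            · rw [rowR_in X (by omega) (by omega), rowR_in X (by omega) hc]
              have := (hG.2 (b + i) b (by omega) (by omega) (by omega)).2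
              rwa [show b + i + 1 = b + 1 + i by omega] at this
            · rw [rowR_out X (by omega) hb (by omega), rowR_out X (by omega) hb' (by omega)]
              exact gt_row hG (by omega) (by omega) le_rfl
    · intro _ b hb
      rw [hr 0 (by omega), rowR_big X 0 (by omega)]
      rfl
    · intro i hi
      rw [hr i (by omega), hr (i + 1) hi]
      refine ⟨?_, ?_⟩
      · intro b
        by_cases hb0 : b = 0
        · subst hb0; rw [rowR_zero, rowR_zero]
        · rcases Nat.lt_or_ge n b with hb | hb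
          · rw [rowR_big X i hb, rowR_big X _ hb]
          · by_cases hc : b + (i + 1) ≤ n
            · rw [rowR_in X (by omega) hc, rowR_in X (by omega) (by omega)]
              exact (hG.2 (b + i) b (by omega) (by omega) (by omega)).1
            · rw [rowR_out X (by omega) hb (by omega), rowR_out X (by omega) hb (by omega)]
      · intro b hb'
        by_cases hb0 : b = 0
        · subst hb0; rw [rowR_zero, rowR_zero]
        · rcases Nat.lt_or_ge n b with hb | hb
          · rw [rowR_big X i hb, rowR_big X _ hb]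
          · rw [rowR_out X (by omega) hb (by omega), rowR_out X (by omega) hb (by omega)]
  · intro b hb
    rw [hr 0 (by omega)]
    rcases Nat.lt_or_ge n b with hb' | hb'
    · rw [rowR_big X 0 hb']
    · rw [rowR_in X hb (by omega)]
      exact hM b hb hb'

theorem ofR_toR {n k : ℕ} (X : Arr) {i j : ℕ} (h1 : 1 ≤ j) (h2 : j ≤ i) (h3 : i ≤ n)
    (h4 : i - j < k) : ofR k (toR n k X) i j = X i j := by
  simp only [ofR]
  rw [if_pos h4, toR, rw'_map h4, rowR_in X h1 (by omega)]
  congr 1
  omega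

theorem toR_congr {n k : ℕ} {X Y : Arr}
    (h : ∀ i j, 1 ≤ j → j ≤ i → i ≤ n → i - j < k → X i j = Y i j) :
    toR n k X = toR n k Y := by
  apply List.map_congr_left
  intro c hc
  rw [List.mem_range] at hc
  funext b
  by_cases hb0 : b = 0
  · subst hb0; rw [rowR_zero, rowR_zero]
  · rcases Nat.lt_or_ge n b with hb | hb
    · rw [rowR_big X c hb, rowR_big Y c hb]
    · by_cases hcc : b + c ≤ n
      · rw [rowR_in X (by omega) hcc, rowR_in Y (by omega) hcc]
        exact h _ _ (by omega) (by omega) (by omega) (by omega)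
      · rw [rowR_out X (by omega) hb (by omega), rowR_out Y (by omega) hb (by omega)]
        exact h _ _ (by omega) (by omega) le_rfl (by omega)

theorem tail_chain {gs : List Row} {M : ℕ} {t : Row} {κ : ℤ} (h : YL M t κ gs) :
    ∀ d i, i + d < gs.length → ∀ b, M - (i + 1) ≤ b → rw' gs (i + d) b = rw' gs i b
  | 0, i, _, b, _ => rfl
  | d + 1, i, h1, b, hb => by
      rw [← tail_chain h d i (by omega) b hb]
      have := (((YL_iff gs M t).mp h).2.2 (i + d) (by omega)).2 b (by omega)
      exact this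

theorem toR_ofR {n k : ℕ} {gs : List Row} (hk : k ≤ n) (hlen : gs.length = k)
    (h : YL (n + 1) idT 1 gs) : toR n k (ofR k gs) = gs := by
  apply list_ext_rw'
  · simp [toR, hlen]
  · intro c hc
    have hc' : c < k := by simpa [toR] using hc
    rw [toR, rw'_map hc']
    obtain ⟨h1, h2, h3⟩ := (YL_iff gs _ _).mp h
    funext b
    by_cases hb0 : b = 0
    · subst hb0; rw [rowR_zero, (h1 c (by omega)).2]
    · rcases Nat.lt_or_ge n b with hb | hb
      · rw [rowR_big _ c hb]
        have := tail_chain h c 0 (by omega) b (by omega)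
        rw [Nat.zero_add] at this
        rw [this, h2 (by omega) b (by omega)]
        rfl
      · by_cases hcc : b + c ≤ n
        · rw [rowR_in _ (by omega) hcc]
          simp only [ofR]
          rw [show b + c - b = c by omega, if_pos hc']
        · rw [rowR_out _ (by omega) hb (by omega)]
          simp only [ofR]
          rw [if_pos (show n - b < k by omega)]
          have := tail_chain h (c - (n - b)) (n - b) (by omega) b (by omega)
          rw [show n - b + (c - (n - b)) = c by omega] at this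
          exact this.symm

theorem rwY_pos {gs : List Row} {M : ℕ} {t : Row} (h : YL M t 1 gs) {i : ℕ}
    (hi : i < gs.length) : ∀ b, 1 ≤ rw' gs i b
  | 0 => by rw [(((YL_iff gs M t).mp h).1 i hi).2]
  | b + 1 => (rwY_pos h hi b).trans ((((YL_iff gs M t).mp h).1 i hi).1 b)

theorem ofR_magog {n k : ℕ} {gs : List Row} (hk1 : 1 ≤ k) (h : gs ∈ RT n k) :
    IsMagog n (ofR k gs) := by
  obtain ⟨hlen, hY, hM⟩ := h
  obtain ⟨h1, h2, h3⟩ := (YL_iff gs _ _).mp hY
  refine ⟨⟨?_, ?_⟩, ?_⟩
  · intro i j hj1 hj2 hi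
    simp only [ofR]
    split_ifs with hc
    · have := rwY_pos hY (show i - j < gs.length by omega) j
      omega
    · omega
  · intro i j hj1 hj2 hi
    simp only [ofR]
    refine ⟨?_, ?_⟩
    · by_cases hc : i + 1 - j < k
      · rw [if_pos hc, if_pos (show i - j < k by omega)]
        have := (h3 (i - j) (by omega)).1 j
        rwa [show i - j + 1 = i + 1 - j by omega] at this
      · rw [if_neg hc]
        split_ifs with hc2
        · exact rwY_pos hY (show i - j < gs.length by omega) j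
        · exact le_rfl
    · rw [show i + 1 - (j + 1) = i - j by omega]
      split_ifs with hc
      · exact (h1 (i - j) (by omega)).1 j
      · exact le_rfl
  · intro j hj1 hj2
    simp only [ofR]
    rw [Nat.sub_self, if_pos (show 0 < k by omega)]
    exact hM j hj1

/-- The right trapezoid attached to a list. -/
def resR (n k : ℕ) (gs : List Row) : rightIdx n k → ℤ := fun p => ofR k gs p.1.1 p.1.2

theorem resR_bijOn {n k : ℕ} (hk1 : 1 ≤ k) (hkn : k ≤ n) :
    Set.BijOn (resR n k) (RT n k) (trapezoids (IsMagog n) (rightIdx n k)) := by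
  refine ⟨?_, ?_, ?_⟩
  · intro gs h
    exact ⟨ofR k gs, ofR_magog hk1 h, fun p => rfl⟩
  · intro xs hx ys hy hxy
    rw [← toR_ofR hkn hx.1 hx.2.1, ← toR_ofR hkn hy.1 hy.2.1]
    apply toR_congr
    intro i j h1 h2 h3 h4
    exact congrFun hxy ⟨(i, j), h1, h2, h3, show i - j ≤ k - 1 by omega⟩
  · rintro T ⟨X, hX, hT⟩
    refine ⟨toR n k X, toR_mem hk1 hkn hX, ?_⟩
    funext p
    obtain ⟨⟨i, j⟩, h1, h2, h3, h4⟩ := p
    have h4' : i - j < k := by
      have : i - j ≤ k - 1 := h4
      omega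
    rw [hT]
    exact ofR_toR X h1 h2 h3 h4'

/-- An explicit bijection between left GOGAm trapezoids and right Magog trapezoids. -/
theorem exists_bijOn {n k : ℕ} (hk1 : 1 ≤ k) (hkn : k ≤ n) :
    ∃ f : (leftIdx n k → ℤ) → (rightIdx n k → ℤ),
      Set.BijOn f (trapezoids (IsGOGAm n) (leftIdx n k)) (trapezoids (IsMagog n) (rightIdx n k)) := by
  classical
  have hL := resL_bijOn hk1 hkn
  have hP := Phi_bijOn (n := n) hk1
  have hR := resR_bijOn hk1 hkn
  have hinv := hL.invOn_invFunOn
  refine ⟨(resR n k ∘ Phi k) ∘ Function.invFunOn (resL n k) (LT n k), ?_⟩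
  exact (hR.comp hP).comp (hL.symm ⟨hinv.2, hinv.1⟩)

theorem ncard_eq {n k : ℕ} (hk1 : 1 ≤ k) (hkn : k ≤ n) :
    (trapezoids (IsGOGAm n) (leftIdx n k)).ncard =
      (trapezoids (IsMagog n) (rightIdx n k)).ncard := by
  obtain ⟨f, hf⟩ := exists_bijOn hk1 hkn
  rw [← hf.image_eq, hf.injOn.ncard_image]

/-! ### finiteness -/

theorem gt_le_top {n : ℕ} {X : Arr} (h : IsGT n X) : ∀ d i j, 1 ≤ j → j + d = i → i ≤ n →
    X i j ≤ X n n
  | 0, i, j, h1, h2, h3 => by
      have : j = i := by omega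
      subst this
      exact gt_diag_top h (n - j) j (by omega) h1
  | d + 1, i, j, h1, h2, h3 => by
      have a := gt_le_top h d i (j + 1) (by omega) (by omega) h3
      have b := gt_row h h1 (by omega) h3
      omega

theorem trapezoids_finite {n : ℕ} {C : Arr → Prop} {I : Set (ℕ × ℕ)}
    (hI : ∀ p ∈ I, 1 ≤ p.2 ∧ p.2 ≤ p.1 ∧ p.1 ≤ n)
    (hC : ∀ X, C X → IsGT n X ∧ X n n ≤ n) : (trapezoids C I).Finite := by
  have hfin : I.Finite := by
    apply Set.Finite.subset (Set.Finite.prod (Set.finite_Iic n) (Set.finite_Iic n))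
    intro p hp
    obtain ⟨h1, h2, h3⟩ := hI p hp
    exact ⟨h3, h2.trans h3⟩
  haveI : Finite I := hfin.to_subtype
  apply Set.Finite.subset (Set.Finite.pi' (fun _ : I => Set.finite_Icc (0 : ℤ) n))
  rintro T ⟨X, hX, hT⟩ p
  obtain ⟨hG, htop⟩ := hC X hX
  obtain ⟨h1, h2, h3⟩ := hI p.1 p.2
  rw [hT p]
  have a := hG.1 p.1.1 p.1.2 h1 h2 h3
  have b := gt_le_top hG (p.1.1 - p.1.2) p.1.1 p.1.2 h1 (by omega) h3
  exact ⟨by omega, by omega⟩

theorem gogam_finite {n k : ℕ} (hn : 1 ≤ n) : (trapezoids (IsGOGAm n) (leftIdx n k)).Finite := by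
  apply trapezoids_finite (n := n)
  · rintro p ⟨h1, h2, h3, h4⟩
    exact ⟨h1, h2, h3⟩
  · rintro X ⟨hG, hM⟩
    refine ⟨hG, ?_⟩
    have := hM.2 n hn le_rfl
    rwa [schutz_of_ge n X n n le_rfl] at this

theorem magog_finite {n k : ℕ} (hn : 1 ≤ n) : (trapezoids (IsMagog n) (rightIdx n k)).Finite := by
  apply trapezoids_finite (n := n)
  · rintro p ⟨h1, h2, h3, h4⟩
    exact ⟨h1, h2, h3⟩
  · rintro X ⟨hG, hM⟩
    exact ⟨hG, hM n hn le_rfl⟩

end Pool.Agent.Lib.MP_b6786a_co
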