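import Mathlib

/-!
# Gog, Magog and GOGAm triangles and trapezoids

Definitions, following the problem file literally.
-/

set_option autoImplicit false

namespace Pool.Agent.Lib.MP_b6786a_co

/-- Integer arrays; the entry `X i j` is the entry in row `i` and position `j`. For a triangle of
size `n` only the entries with `1 ≤ j ≤ i ≤ n` matter. -/
abbrev Arr := ℕ → ℕ → ℤ

/-- `X` is a Gelfand-Tsetlin triangle of size `n`: the entries `X i j`, `1 ≤ j ≤ i ≤ n`, are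
positive integers and `X (i+1) j ≤ X i j ≤ X (i+1) (j+1)` for `1 ≤ j ≤ i ≤ n - 1`. -/
def IsGT (n : ℕ) (X : Arr) : Prop :=
  (∀ i j, 1 ≤ j → j ≤ i → i ≤ n → 0 < X i j) ∧
  (∀ i j, 1 ≤ j → j ≤ i → i + 1 ≤ n → X (i + 1) j ≤ X i j ∧ X i j ≤ X (i + 1) (j + 1))

/-- `X` is a Gog triangle of size `n`: a GT triangle with strictly increasing rows and
`X n j = j` for `1 ≤ j ≤ n`. -/
def IsGog (n : ℕ) (X : Arr) : Prop :=
  IsGT n X ∧ (∀ i j, 1 ≤ j → j + 1 ≤ i → i ≤ n → X i j < X i (j + 1)) ∧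
    (∀ j, 1 ≤ j → j ≤ n → X n j = (j : ℤ))

/-- `X` is a Magog triangle of size `n`: a GT triangle with `X j j ≤ j` for `1 ≤ j ≤ n`. -/
def IsMagog (n : ℕ) (X : Arr) : Prop :=
  IsGT n X ∧ (∀ j, 1 ≤ j → j ≤ n → X j j ≤ (j : ℤ))

/-- The map `s_m`: it changes only row `m`, replacing `X m j` (for `1 ≤ j ≤ m`) by
`max (X (m+1) j) (X (m-1) (j-1)) + min (X (m+1) (j+1)) (X (m-1) j) - X m j`, where the entry
`X (m-1) (j-1)` is dropped if `j = 1` and the entry `X (m-1) j` is dropped if `j = m`. -/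
def toggle (m : ℕ) (X : Arr) : Arr := fun i j =>
  if i = m ∧ 1 ≤ j ∧ j ≤ m then
    (if j = 1 then X (m + 1) j else max (X (m + 1) j) (X (m - 1) (j - 1))) +
      (if j = m then X (m + 1) (j + 1) else min (X (m + 1) (j + 1)) (X (m - 1) j)) - X m j
  else X i j

/-- The map `ω_j = s_j s_{j-1} ⋯ s_1` (so `s_1` is applied first). -/
def omegaMap : ℕ → Arr → Arr
  | 0, X => X
  | j + 1, X => toggle (j + 1) (omegaMap j X)

/-- The Schützenberger involution on GT triangles of size `n`: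
`S = ω_1 ω_2 ⋯ ω_{n-1}` (so `ω_{n-1}` is applied first). -/
def schutz : ℕ → Arr → Arr
  | 0, X => X
  | n + 1, X => schutz n (omegaMap n X)

/-- `X` is a GOGAm triangle of size `n`: a GT triangle such that `S X` is a Magog triangle. -/
def IsGOGAm (n : ℕ) (X : Arr) : Prop :=
  IsGT n X ∧ IsMagog n (schutz n X)

/-- Index set of an `(n,k)` left trapezoid: `n ≥ i ≥ j ≥ 1` and `j ≤ k`. -/
def leftIdx (n k : ℕ) : Set (ℕ × ℕ) :=
  {p | 1 ≤ p.2 ∧ p.2 ≤ p.1 ∧ p.1 ≤ n ∧ p.2 ≤ k}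

/-- Index set of an `(n,k)` right trapezoid (`k ≥ 1`): `n ≥ i ≥ j ≥ 1` and `i - j ≤ k - 1`. -/
def rightIdx (n k : ℕ) : Set (ℕ × ℕ) :=
  {p | 1 ≤ p.2 ∧ p.2 ≤ p.1 ∧ p.1 ≤ n ∧ p.1 - p.2 ≤ k - 1}

/-- The arrays indexed by `I` that are the restriction of some array `X` satisfying `C`. -/
def trapezoids (C : Arr → Prop) (I : Set (ℕ × ℕ)) : Set (I → ℤ) :=
  {T | ∃ X, C X ∧ ∀ p : I, T p = X p.1.1 p.1.2}

end Pool.Agent.Lib.MP_b6786a_co
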