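import Pool.Agent.Lib.MP_b6786a_co.Count

/-!
# Left GOGAm trapezoids and right Magog trapezoids are equinumerous

For all `1 ≤ k ≤ n` the number of `(n,k)` left GOGAm trapezoids equals the number of `(n,k)` right
Magog trapezoids.  (By Zeilberger's theorem the latter is the number of `(n,k)` right Gog
trapezoids, which is the number of `(n,k)` left Gog trapezoids.)
-/

set_option autoImplicit false

open Pool.Agent.Lib.MP_b6786a_co

namespace Pool.Agent.Results.MP_b6786a_co.LeftGOGAmEqRightMagog

/-- For all `1 ≤ k ≤ n`, the `(n,k)` left GOGAm trapezoids form a finite set which has as many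
elements as the set of `(n,k)` right Magog trapezoids. -/
theorem result (n k : ℕ) (hk1 : 1 ≤ k) (hkn : k ≤ n) :
    (trapezoids (IsGOGAm n) (leftIdx n k)).Finite ∧
      (trapezoids (IsGOGAm n) (leftIdx n k)).ncard =
        (trapezoids (IsMagog n) (rightIdx n k)).ncard :=
  ⟨gogam_finite (hk1.trans hkn), ncard_eq hk1 hkn⟩

end Pool.Agent.Results.MP_b6786a_co.LeftGOGAmEqRightMagog
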