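import Mathlib

/-!
# The two-row bijection

Combinatorial core: a bijection between two families of lists of integer sequences.  The rows of
the source family will be (up to re-indexing) the NW-SE diagonals of a left GOGAm trapezoid, and
the rows of the target family will be the SW-NE diagonals of a right Magog trapezoid.
-/

set_option autoImplicit false

namespace Pool.Agent.Lib.MP_b6786a_co

/-- A bi-infinite (to the right) integer sequence. -/
abbrev Row := ℕ → ℤ

/-- The last-passage vector of a list of rows. -/
def V : List Row → Row
  | [] => fun _ => 0
  | [x] => x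
  | x :: y :: l => fun b => max (V (y :: l) b) (V (y :: l) (b + 1) - x (b + 1) + x b)

/-- The rows set aside by one pass. -/
def Q : List Row → List Row
  | [] => []
  | [_] => []
  | x :: y :: l => (fun b => V (x :: y :: l) b - V (y :: l) (b + 1) + x (b + 1)) :: Q (y :: l)

/-- one step of the inverse pass: new low row -/
def lowR (q p : Row) : Row
  | 0 => q 0
  | b + 1 => q b + min (q (b + 1) - q b) (p (b + 1) - p b)

/-- one step of the inverse pass: new high row -/
def highR (q p : Row) : Row
  | 0 => p 0
  | b + 1 => p b + min (q (b + 1) - q b) (p (b + 1) - p b)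

/-- The inverse pass. -/
def R (p : Row) : List Row → List Row
  | [] => [p]
  | q :: qs => lowR q p :: R (highR q p) qs

/-- Source family. -/
def TL (s M : ℕ) (t : Row) (κ : ℤ) : List Row → Prop
  | [] => True
  | [x] => (∀ b, x b ≤ x (b + 1)) ∧ x 0 = κ ∧ (∀ b, M ≤ b → x b = t b)
  | x :: y :: l => (∀ b, x b ≤ x (b + 1)) ∧ x 0 = κ ∧ (∀ b, M ≤ b → x b = t b) ∧
      (∀ b, x b ≤ y b) ∧ (∀ b, b ≤ s + 1 → x b = y b) ∧ TL (s + 1) M t κ (y :: l)

/-- Target family. -/
def YL (M : ℕ) (t : Row) (κ : ℤ) : List Row → Prop
  | [] => True
  | [x] => (∀ b, x b ≤ x (b + 1)) ∧ x 0 = κ ∧ (∀ b, M ≤ b → x b = t b)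
  | x :: y :: l => (∀ b, x b ≤ x (b + 1)) ∧ x 0 = κ ∧ (∀ b, M ≤ b → x b = t b) ∧
      (∀ b, y b ≤ x b) ∧ YL (M - 1) x κ (y :: l)

theorem TL_mono {s M : ℕ} {t : Row} {κ : ℤ} {x : Row} {l : List Row}
    (h : TL s M t κ (x :: l)) : ∀ b, x b ≤ x (b + 1) := by
  cases l with
  | nil => exact h.1
  | cons y l => exact h.1

theorem TL_zero {s M : ℕ} {t : Row} {κ : ℤ} {x : Row} {l : List Row}
    (h : TL s M t κ (x :: l)) : x 0 = κ := by
  cases l with
  | nil => exact h.2.1
  | cons y l => exact h.2.1

theorem TL_tail {s M : ℕ} {t : Row} {κ : ℤ} {x : Row} {l : List Row}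
    (h : TL s M t κ (x :: l)) : ∀ b, M ≤ b → x b = t b := by
  cases l with
  | nil => exact h.2.2
  | cons y l => exact h.2.2.1

theorem TL_congr {M : ℕ} {t t' : Row} {κ : ℤ} (ht : ∀ b, M ≤ b → t b = t' b) :
    ∀ (l : List Row) (s : ℕ), TL s M t κ l → TL s M t' κ l
  | [], _, _ => trivial
  | [_], _, h => ⟨h.1, h.2.1, fun b hb => (h.2.2 b hb).trans (ht b hb)⟩
  | _ :: y :: l, s, h => ⟨h.1, h.2.1, fun b hb => (h.2.2.1 b hb).trans (ht b hb), h.2.2.2.1,
      h.2.2.2.2.1, TL_congr ht (y :: l) (s + 1) h.2.2.2.2.2⟩

theorem YL_congr {M : ℕ} {t t' : Row} {κ : ℤ} (ht : ∀ b, M ≤ b → t b = t' b) :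
    ∀ (l : List Row), YL M t κ l → YL M t' κ l
  | [], _ => trivial
  | [_], h => ⟨h.1, h.2.1, fun b hb => (h.2.2 b hb).trans (ht b hb)⟩
  | _ :: _ :: _, h => ⟨h.1, h.2.1, fun b hb => (h.2.2.1 b hb).trans (ht b hb), h.2.2.2.1,
      h.2.2.2.2⟩

/-- The head row is below the last-passage vector. -/
theorem head_le_V : ∀ (l : List Row) (s M : ℕ) (t : Row) (κ : ℤ) (x : Row),
    TL s M t κ (x :: l) → ∀ b, x b ≤ V (x :: l) b
  | [], _, _, _, _, _, _, b => by simp [V]
  | y :: l, s, M, t, κ, x, h, b => by
      have h1 := head_le_V l (s + 1) M t κ y h.2.2.2.2.2 b
      have h2 := h.2.2.2.1 b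
      simp only [V]
      omega

/-- Near the left end the last-passage vector agrees with the head row. -/
theorem V_eq_head : ∀ (l : List Row) (s M : ℕ) (t : Row) (κ : ℤ) (x : Row),
    TL s M t κ (x :: l) → ∀ b, b ≤ s → V (x :: l) b = x b
  | [], _, _, _, _, _, _, b, _ => by simp [V]
  | y :: l, s, M, t, κ, x, h, b, hb => by
      have h1 := V_eq_head l (s + 1) M t κ y h.2.2.2.2.2 b (by omega)
      have h2 := V_eq_head l (s + 1) M t κ y h.2.2.2.2.2 (b + 1) (by omega)
      have h3 := h.2.2.2.2.1 b (by omega)
      have h4 := h.2.2.2.2.1 (b + 1) (by omega)
      simp only [V]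
      omega

/-- The last-passage vector is monotone. -/
theorem V_mono : ∀ (l : List Row) (s M : ℕ) (t : Row) (κ : ℤ) (x : Row),
    TL s M t κ (x :: l) → ∀ b, V (x :: l) b ≤ V (x :: l) (b + 1)
  | [], _, _, _, _, x, h, b => by simpa [V] using h.1 b
  | y :: l, s, M, t, κ, x, h, b => by
      have h1 := V_mono l (s + 1) M t κ y h.2.2.2.2.2 b
      have h2 := h.1 b
      simp only [V]
      omega

/-- Beyond the right end the last-passage vector is the common tail. -/
theorem V_tail : ∀ (l : List Row) (s M : ℕ) (t : Row) (κ : ℤ) (x : Row),
    TL s M t κ (x :: l) → ∀ b, M ≤ b → V (x :: l) b = t b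
  | [], _, _, _, _, x, h, b, hb => by simpa [V] using h.2.2 b hb
  | y :: l, s, M, t, κ, x, h, b, hb => by
      have h1 := V_tail l (s + 1) M t κ y h.2.2.2.2.2 b hb
      have h2 := V_tail l (s + 1) M t κ y h.2.2.2.2.2 (b + 1) (by omega)
      have h3 := h.2.2.1 b hb
      have h4 := h.2.2.1 (b + 1) (by omega)
      simp only [V]
      omega

/-- Main forward lemma for one pass. -/
theorem pass_fwd : ∀ (l : List Row) (s M : ℕ) (t : Row) (κ : ℤ) (x : Row),
    TL s M t κ (x :: l) →
      TL s (M - 1) (V (x :: l)) κ (Q (x :: l)) ∧
      (∀ q qs, Q (x :: l) = q :: qs → (∀ b, V (q :: qs) b ≤ V (x :: l) b) ∧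
        (∀ b, b ≤ s → V (x :: l) b = q b)) ∧
      R (V (x :: l)) (Q (x :: l)) = x :: l
  | [], _, _, _, _, x, _ => by
      refine ⟨by simp [Q, TL], by simp [Q], by simp [Q, R, V]⟩
  | y :: l, s, M, t, κ, x, h => by
      obtain ⟨hxm, hx0, hxt, hxy, hxd, hy⟩ := h
      obtain ⟨ih1, ih2, ih3⟩ := pass_fwd l (s + 1) M t κ y hy
      have e0 := head_le_V l (s + 1) M t κ y hy
      have e1 := V_eq_head l (s + 1) M t κ y hy
      have e2 := V_mono l (s + 1) M t κ y hy
      have e3 := V_tail l (s + 1) M t κ y hy
      -- the difference between the last-passage vector of the tail and x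
      have hV : ∀ b, V (x :: y :: l) b =
          max (V (y :: l) b) (V (y :: l) (b + 1) - x (b + 1) + x b) := fun b => rfl
      set p := V (y :: l) with hp
      set p' := V (x :: y :: l) with hp'
      set q0 : Row := fun b => p' b - p (b + 1) + x (b + 1) with hq0
      have hq0' : ∀ b, q0 b = p' b - p (b + 1) + x (b + 1) := fun b => rfl
      have hQ : Q (x :: y :: l) = q0 :: Q (y :: l) := rfl
      have hle : ∀ b, x b ≤ p b := fun b => (hxy b).trans (e0 b)
      have hdg : ∀ b, b ≤ s + 1 → p b = x b := fun b hb => (e1 b hb).trans (hxd b hb).symm
      have hp'M : ∀ b, M - 1 ≤ b → p' b = p b := by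
        intro b hb
        have h1 := e3 (b + 1) (by omega)
        have h2 := hxt (b + 1) (by omega)
        have h3 := hle b
        have h4 := hV b
        omega
      have hmono : ∀ b, q0 b ≤ q0 (b + 1) := by
        intro b
        have h1 := hV b
        have h2 := hV (b + 1)
        have h3 := e2 b
        have h4 := e2 (b + 1)
        have h5 := hxm b
        have h6 := hxm (b + 1)
        have h7 := hle b
        have h8 := hle (b + 1)
        rw [hq0' b, hq0' (b + 1)]
        omega
      have hz : q0 0 = κ := by
        have h1 := hV 0
        have h2 := hdg 0 (by omega)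
        have h3 := hdg (0 + 1) (by omega)
        rw [hq0' 0]
        omega
      have ht : ∀ b, M - 1 ≤ b → q0 b = p' b := by
        intro b hb
        have h1 := e3 (b + 1) (by omega)
        have h2 := hxt (b + 1) (by omega)
        rw [hq0' b]
        omega
      have hdq : ∀ b, b ≤ s + 1 → q0 b = x b := by
        intro b hb
        have h1 := hV b
        have h2 := hdg b hb
        have h3 := hle (b + 1)
        rw [hq0' b]
        omega
      refine ⟨?_, ?_, ?_⟩
      · rw [hQ]
        cases hQy : Q (y :: l) with
        | nil => exact ⟨hmono, hz, ht⟩
        | cons q1 qs =>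
            rw [hQy] at ih1
            obtain ⟨i1, i2⟩ := ih2 q1 qs hQy
            refine ⟨hmono, hz, ht, ?_, ?_, TL_congr (fun b hb => (hp'M b hb).symm) _ _ ih1⟩
            · -- q0 ≤ q1, from x ≤ y and the inverse formula for y
              rw [hQy] at ih3
              have hyl : lowR q1 p = y := by
                simp only [R] at ih3
                exact (List.cons.inj ih3).1
              intro b
              have a1 := hxy b
              have a2 := hxy (b + 1)
              have a3 : y (b + 1) = q1 b + min (q1 (b + 1) - q1 b) (p (b + 1) - p b) := by
                rw [← hyl]; rfl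
              have a4 : y b ≤ q1 b := by
                rw [← hyl]
                cases b with
                | zero => exact le_refl _
                | succ b =>
                    simp only [lowR]
                    omega
              have a5 := hV b
              rw [hq0' b]
              omega
            · intro b hb
              rw [hdq b hb, ← hdg b hb]
              exact i2 b hb
      · intro q qs hqq
        rw [hQ] at hqq
        obtain ⟨rfl, rfl⟩ := List.cons.inj hqq
        constructor
        · intro b
          cases hQy : Q (y :: l) with
          | nil =>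
              simp only [V]
              have h1 := hle (b + 1)
              rw [hq0' b]
              omega
          | cons q1 qs =>
              obtain ⟨i1, i2⟩ := ih2 q1 qs hQy
              have a1 := i1 b
              have a2 := i1 (b + 1)
              have a3 := hV b
              have a4 := hV (b + 1)
              have a5 := hle b
              have a6 := hle (b + 1)
              simp only [V]
              rw [hq0' b, hq0' (b + 1)]
              omega
        · intro b hb
          have h1 := hdg (b + 1) (by omega)
          rw [hq0' b]
          omega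
      · rw [hQ]
        simp only [R]
        have hl : lowR q0 p' = x := by
          funext b
          cases b with
          | zero =>
              simp only [lowR]
              rw [hz, hx0]
          | succ b =>
              simp only [lowR]
              have a3 := hV b
              have a4 := hV (b + 1)
              have a5 := hle b
              have a6 := hle (b + 1)
              have a7 := hle (b + 2)
              rw [hq0' b, hq0' (b + 1)]
              omega
        have hh : highR q0 p' = p := by
          funext b
          cases b with
          | zero =>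
              simp only [highR]
              have a3 := hV 0
              have a4 := hdg 0 (by omega)
              have a5 := hdg (0 + 1) (by omega)
              omega
          | succ b =>
              simp only [highR]
              have a3 := hV b
              have a4 := hV (b + 1)
              have a5 := hle b
              have a6 := hle (b + 1)
              have a7 := hle (b + 2)
              rw [hq0' b, hq0' (b + 1)]
              omega
        rw [hl, hh, ih3]

/-- Main backward lemma for one pass. -/
theorem pass_bwd : ∀ (qs : List Row) (s M : ℕ) (t : Row) (κ : ℤ) (p : Row),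
    (∀ b, p b ≤ p (b + 1)) → p 0 = κ → (∀ b, M ≤ b → p b = t b) →
    TL s (M - 1) p κ qs →
    (∀ q l, qs = q :: l → (∀ b, V (q :: l) b ≤ p b) ∧ (∀ b, b ≤ s → p b = q b)) →
      TL s M t κ (R p qs) ∧ V (R p qs) = p ∧ Q (R p qs) = qs
  | [], s, M, t, κ, p, hm, h0, ht, _, _ => by
      refine ⟨⟨hm, h0, ht⟩, rfl, rfl⟩
  | q :: l, s, M, t, κ, p, hm, h0, ht, hq, hv => by
      obtain ⟨hv1, hv2⟩ := hv q l rfl
      have hqm := TL_mono hq
      have hq0 := TL_zero hq
      have hqt := TL_tail hq
      have hqV := head_le_V l s (M - 1) p κ q hq
      have hqp : ∀ b, q b ≤ p b := fun b => (hqV b).trans (hv1 b)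
      set x := lowR q p with hx
      set p1 := highR q p with hp1
      have hx0 : x 0 = q 0 := rfl
      have hxs : ∀ b, x (b + 1) = q b + min (q (b + 1) - q b) (p (b + 1) - p b) := fun b => rfl
      have hp0 : p1 0 = p 0 := rfl
      have hps : ∀ b, p1 (b + 1) = p b + min (q (b + 1) - q b) (p (b + 1) - p b) := fun b => rfl
      have hp1p : ∀ b, p1 b ≤ p b := by
        intro b
        cases b with
        | zero => exact le_of_eq hp0
        | succ b => rw [hps b]; omega
      have hxq : ∀ b, x b ≤ q b := by
        intro b
        cases b with
        | zero => exact le_of_eq hx0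
        | succ b => rw [hxs b]; omega
      have hp1m : ∀ b, p1 b ≤ p1 (b + 1) := by
        intro b
        have h1 := hp1p b
        have h2 := hps b
        have h3 := hm b
        have h4 := hqm b
        omega
      have hxm : ∀ b, x b ≤ x (b + 1) := by
        intro b
        have h1 := hxq b
        have h2 := hxs b
        have h3 := hm b
        have h4 := hqm b
        omega
      have hp1M : ∀ b, M - 1 ≤ b → p b = p1 b := by
        intro b hb
        cases b with
        | zero => exact hp0.symm
        | succ b =>
            have h1 := hps b
            have h2 := hqt (b + 1) hb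
            have h3 := hqp b
            omega
      have hp1t : ∀ b, M ≤ b → p1 b = t b := fun b hb =>
        (hp1M b (by omega)).symm.trans (ht b hb)
      have hp1q : ∀ b, b ≤ s + 1 → p1 b = q b := by
        intro b hb
        cases b with
        | zero => rw [hp0, h0, hq0]
        | succ b =>
            have h1 := hps b
            have h2 := hv2 b (by omega)
            have h3 := hqp (b + 1)
            omega
      have hxq' : ∀ b, b ≤ s + 1 → x b = q b := by
        intro b hb
        cases b with
        | zero => exact hx0
        | succ b =>
            have h1 := hxs b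
            have h2 := hv2 b (by omega)
            have h3 := hqp (b + 1)
            omega
      have hxt : ∀ b, M ≤ b → x b = t b := by
        intro b hb
        rw [← ht b hb]
        cases b with
        | zero =>
            rw [hx0]
            exact hqt 0 (by omega)
        | succ b =>
            have h1 := hxs b
            have h2 := hqt (b + 1) (by omega)
            have h3 := hqt b (by omega)
            omega
      have hTl : TL (s + 1) (M - 1) p1 κ l := by
        cases l with
        | nil => trivial
        | cons q1 l => exact TL_congr hp1M _ _ hq.2.2.2.2.2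
      have hVl : ∀ q1 l1, l = q1 :: l1 →
          (∀ b, V (q1 :: l1) b ≤ p1 b) ∧ (∀ b, b ≤ s + 1 → p1 b = q1 b) := by
        rintro q1 l1 rfl
        constructor
        · intro b
          cases b with
          | zero =>
              have h1 := hv1 0
              simp only [V] at h1
              omega
          | succ b =>
              have h1 := hv1 b
              have h2 := hv1 (b + 1)
              have h3 := hps b
              simp only [V] at h1 h2
              omega
        · intro b hb
          rw [hp1q b hb]
          exact hq.2.2.2.2.1 b hb
      obtain ⟨i1, i2, i3⟩ := pass_bwd l (s + 1) M t κ p1 hp1m (hp0.trans h0) hp1t hTl hVl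
      have hR : R p (q :: l) = x :: R p1 l := rfl
      -- the head of `R p1 l`
      have hhead : ∃ y l2, R p1 l = y :: l2 ∧ (∀ b, x b ≤ y b) ∧
          (∀ b, b ≤ s + 1 → x b = y b) := by
        cases l with
        | nil =>
            refine ⟨p1, [], rfl, ?_, ?_⟩
            · intro b
              cases b with
              | zero =>
                  have := hqp 0
                  omega
              | succ b =>
                  have h1 := hxs b
                  have h2 := hps b
                  have h3 := hqp b
                  omega
            · intro b hb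
              rw [hxq' b hb, hp1q b hb]
        | cons q1 l1 =>
            obtain ⟨w1, w2⟩ := hVl q1 l1 rfl
            have hq1 : ∀ b, q b ≤ q1 b := hq.2.2.2.1
            refine ⟨lowR q1 p1, R (highR q1 p1) l1, rfl, ?_, ?_⟩
            · intro b
              cases b with
              | zero =>
                  have h1 := hq1 0
                  simp only [lowR]
                  omega
              | succ b =>
                  have h1 := hxs b
                  have h2 := hps b
                  have h3 := hq1 b
                  have h4 := hq1 (b + 1)
                  have h5 := hp1p b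
                  simp only [lowR]
                  omega
            · intro b hb
              have a1 := hxq' b hb
              have a2 : ∀ b, b ≤ s + 1 → q b = q1 b := hq.2.2.2.2.1
              cases b with
              | zero =>
                  simp only [lowR]
                  have := a2 0 hb
                  omega
              | succ b =>
                  have h1 := a2 b (by omega)
                  have h2 := a2 (b + 1) hb
                  have h3 := w2 b (by omega)
                  have h4 := w2 (b + 1) hb
                  simp only [lowR]
                  omega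
      obtain ⟨y, l2, hy, hxy, hxyd⟩ := hhead
      rw [hR]
      rw [hy] at i1 i2 i3 ⊢
      have hV : V (x :: y :: l2) = p := by
        funext b
        simp only [V]
        rw [i2]
        have h1 := hxs b
        have h2 := hps b
        cases b with
        | zero => omega
        | succ b =>
            have h3 := hxs b
            have h4 := hps b
            have h5 := hqp b
            have h6 := hqp (b + 1)
            omega
      refine ⟨⟨hxm, hx0.trans hq0, hxt, hxy, hxyd, i1⟩, hV, ?_⟩
      simp only [Q]
      rw [i3, hV, i2]
      congr 1
      funext b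
      have h1 := hxs b
      have h2 := hps b
      omega

/-- The full map. -/
def Phi : ℕ → List Row → List Row
  | 0, _ => []
  | k + 1, xs => V xs :: Phi k (Q xs)

/-- The full inverse map. -/
def Psi : List Row → List Row
  | [] => []
  | p :: gs => R p (Psi gs)

theorem length_Q : ∀ (l : List Row), (Q l).length = l.length - 1
  | [] => rfl
  | [_] => rfl
  | x :: y :: l => by
      simp only [Q, List.length_cons]
      rw [length_Q (y :: l)]
      simp

theorem length_R : ∀ (l : List Row) (p : Row), (R p l).length = l.length + 1
  | [], _ => rfl
  | q :: l, p => by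
      simp only [R, List.length_cons]
      rw [length_R l]

theorem length_Phi : ∀ (k : ℕ) (l : List Row), (Phi k l).length = k
  | 0, _ => rfl
  | k + 1, l => by simp only [Phi, List.length_cons, length_Phi k]

theorem length_Psi : ∀ (l : List Row), (Psi l).length = l.length
  | [] => rfl
  | p :: gs => by simp only [Psi, length_R, List.length_cons, length_Psi gs]

theorem Phi_spec : ∀ (k M : ℕ) (t : Row) (κ : ℤ) (xs : List Row), xs.length = k →
    TL 0 M t κ xs → YL M t κ (Phi k xs) ∧ Psi (Phi k xs) = xs
  | 0, M, t, κ, xs, hk, _ => by
      have : xs = [] := List.length_eq_zero_iff.mp hk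
      subst this
      exact ⟨trivial, rfl⟩
  | k + 1, M, t, κ, [], hk, _ => by simp at hk
  | k + 1, M, t, κ, x :: l, hk, h => by
      obtain ⟨h1, h2, h3⟩ := pass_fwd l 0 M t κ x h
      have hlen : (Q (x :: l)).length = k := by
        rw [length_Q]; simp at hk ⊢; omega
      obtain ⟨i1, i2⟩ := Phi_spec k (M - 1) (V (x :: l)) κ (Q (x :: l)) hlen h1
      have m1 := V_mono l 0 M t κ x h
      have m2 : V (x :: l) 0 = κ := (V_eq_head l 0 M t κ x h 0 le_rfl).trans (TL_zero h)
      have m3 := V_tail l 0 M t κ x h
      refine ⟨?_, ?_⟩
      · cases k with
        | zero => exact ⟨m1, m2, m3⟩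
        | succ k =>
            refine ⟨m1, m2, m3, ?_, i1⟩
            cases hQ : Q (x :: l) with
            | nil => rw [hQ] at hlen; simp at hlen
            | cons q qs => exact (h2 q qs hQ).1
      · simp only [Phi, Psi]
        rw [i2, h3]

theorem YL_mono {M : ℕ} {t : Row} {κ : ℤ} {x : Row} {l : List Row}
    (h : YL M t κ (x :: l)) : ∀ b, x b ≤ x (b + 1) := by
  cases l with
  | nil => exact h.1
  | cons y l => exact h.1

theorem YL_zero {M : ℕ} {t : Row} {κ : ℤ} {x : Row} {l : List Row}
    (h : YL M t κ (x :: l)) : x 0 = κ := by
  cases l with
  | nil => exact h.2.1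
  | cons y l => exact h.2.1

theorem YL_tail {M : ℕ} {t : Row} {κ : ℤ} {x : Row} {l : List Row}
    (h : YL M t κ (x :: l)) : ∀ b, M ≤ b → x b = t b := by
  cases l with
  | nil => exact h.2.2
  | cons y l => exact h.2.2.1

theorem Psi_spec : ∀ (gs : List Row) (M : ℕ) (t : Row) (κ : ℤ), YL M t κ gs →
    TL 0 M t κ (Psi gs) ∧ Phi gs.length (Psi gs) = gs
  | [], M, t, κ, _ => ⟨trivial, rfl⟩
  | p :: gs, M, t, κ, h => by
      have m1 := YL_mono h
      have m2 := YL_zero h
      have m3 := YL_tail h
      have hgs : YL (M - 1) p κ gs := by
        cases gs with
        | nil => trivial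
        | cons g gs => exact h.2.2.2.2
      obtain ⟨i1, i2⟩ := Psi_spec gs (M - 1) p κ hgs
      have key := pass_bwd (Psi gs) 0 M t κ p m1 m2 m3 i1 (by
        intro q l hql
        rw [← hql]
        constructor
        · intro b
          cases gs with
          | nil => simp [Psi] at hql
          | cons g gs =>
              have e : V (Psi (g :: gs)) = g := by
                have := congrArg List.head? i2
                simpa [Phi] using this
              rw [e]
              exact h.2.2.2.1 b
        · intro b hb
          have hb0 : b = 0 := by omega
          subst hb0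
          rw [m2]
          rw [hql] at i1
          exact (TL_zero i1).symm)
      obtain ⟨k1, k2, k3⟩ := key
      refine ⟨k1, ?_⟩
      simp only [Psi, List.length_cons, Phi]
      rw [k2, k3, i2]

theorem V_Psi {p : Row} {gs : List Row} {M : ℕ} {t : Row} {κ : ℤ}
    (h : YL M t κ (p :: gs)) : V (Psi (p :: gs)) = p := by
  have := congrArg List.head? (Psi_spec _ M t κ h).2
  simpa [Phi] using this

end Pool.Agent.Lib.MP_b6786a_co
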