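import Pool.Agent.Lib.MP_b6786a_co.Defs

/-!
# The right-most diagonal of `S X`

We prove that `S` preserves GT triangles, and compute the entries `(S X) j j` by a last-passage
recursion.
-/

set_option autoImplicit false

namespace Pool.Agent.Lib.MP_b6786a_co

theorem toggle_of_ne {m : ℕ} (X : Arr) {i : ℕ} (h : i ≠ m) (j : ℕ) : toggle m X i j = X i j := by
  simp [toggle, h]

theorem omegaMap_of_gt : ∀ (m : ℕ) (X : Arr) (i j : ℕ), m < i → omegaMap m X i j = X i j
  | 0, _, _, _, _ => rfl
  | m + 1, X, i, j, h => by
      simp only [omegaMap]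
      rw [toggle_of_ne _ (by omega), omegaMap_of_gt m X i j (by omega)]

/-- rows `≤ m` of `ω_n X` are those of `ω_m X` -/
theorem omegaMap_row : ∀ (n m : ℕ) (X : Arr) (i j : ℕ), i ≤ m → m ≤ n →
    omegaMap n X i j = omegaMap m X i j
  | 0, m, X, i, j, _, h => by
      have : m = 0 := by omega
      rw [this]
  | n + 1, m, X, i, j, h1, h2 => by
      by_cases h : m = n + 1
      · rw [h]
      · simp only [omegaMap]
        rw [toggle_of_ne _ (by omega), omegaMap_row n m X i j h1 (by omega)]

/-- The recursion for the entries of `ω_n X`. -/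
theorem omegaMap_rec (n : ℕ) (X : Arr) (m j : ℕ) (hm : m + 1 ≤ n) (hj1 : 1 ≤ j) (hj2 : j ≤ m + 1) :
    omegaMap n X (m + 1) j =
      (if j = 1 then X (m + 2) j else max (X (m + 2) j) (omegaMap n X m (j - 1))) +
      (if j = m + 1 then X (m + 2) (j + 1) else min (X (m + 2) (j + 1)) (omegaMap n X m j))
        - X (m + 1) j := by
  rw [omegaMap_row n (m + 1) X (m + 1) j le_rfl hm]
  rw [omegaMap_row n m X m (j - 1) le_rfl (by omega)]
  rw [omegaMap_row n m X m j le_rfl (by omega)]
  simp only [omegaMap, toggle]
  rw [if_pos ⟨trivial, hj1, hj2⟩]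
  rw [omegaMap_of_gt m X (m + 1) j (by omega)]
  simp only [Nat.add_sub_cancel]
  rw [show m + 1 + 1 = m + 2 from rfl]
  rw [omegaMap_of_gt m X (m + 2) j (by omega), omegaMap_of_gt m X (m + 2) (j + 1) (by omega)]

theorem schutz_of_ge : ∀ (n : ℕ) (X : Arr) (i j : ℕ), n ≤ i → schutz n X i j = X i j
  | 0, _, _, _, _ => rfl
  | n + 1, X, i, j, h => by
      simp only [schutz]
      rw [schutz_of_ge n _ i j (by omega), omegaMap_of_gt n X i j (by omega)]

/-! ### `S` preserves GT triangles -/

theorem toggle_isGT {n m : ℕ} {X : Arr} (hX : IsGT n X) (hm1 : 1 ≤ m) (hm2 : m + 1 ≤ n) :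
    IsGT n (toggle m X) := by
  obtain ⟨hp, hi⟩ := hX
  have key : ∀ j, 1 ≤ j → j ≤ m →
      X (m + 1) j ≤ toggle m X m j ∧ (2 ≤ j → X (m - 1) (j - 1) ≤ toggle m X m j) ∧
      toggle m X m j ≤ X (m + 1) (j + 1) ∧ (j + 1 ≤ m → toggle m X m j ≤ X (m - 1) j) := by
    intro j hj1 hj2
    have h1 := hi m j hj1 hj2 hm2
    have e : toggle m X m j =
        (if j = 1 then X (m + 1) j else max (X (m + 1) j) (X (m - 1) (j - 1))) +
        (if j = m then X (m + 1) (j + 1) else min (X (m + 1) (j + 1)) (X (m - 1) j)) - X m j := by
      simp [toggle, hj1, hj2]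
    have h2 : 2 ≤ j → X (m - 1) (j - 1) ≤ X m j := by
      intro h
      have := (hi (m - 1) (j - 1) (by omega) (by omega) (by omega)).2
      rwa [show m - 1 + 1 = m by omega, show j - 1 + 1 = j by omega] at this
    have h3 : j + 1 ≤ m → X m j ≤ X (m - 1) j := by
      intro h
      have := (hi (m - 1) j (by omega) (by omega) (by omega)).1
      rwa [show m - 1 + 1 = m by omega] at this
    rw [e]
    by_cases c1 : j = 1
    · by_cases c2 : j = m
      · rw [if_pos c1, if_pos c2]
        refine ⟨by omega, by omega, by omega, by omega⟩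
      · have h3' := h3 (by omega)
        rw [if_pos c1, if_neg c2]
        refine ⟨by omega, by omega, by omega, by omega⟩
    · have h2' := h2 (by omega)
      by_cases c2 : j = m
      · rw [if_neg c1, if_pos c2]
        refine ⟨by omega, by omega, by omega, by omega⟩
      · have h3' := h3 (by omega)
        rw [if_neg c1, if_neg c2]
        refine ⟨by omega, by omega, by omega, by omega⟩
  refine ⟨?_, ?_⟩
  · intro i j hj1 hj2 hi2
    by_cases c : i = m
    · subst c
      have := (key j hj1 hj2).1
      have := hp (i + 1) j hj1 (by omega) hm2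
      omega
    · rw [toggle_of_ne X c]
      exact hp i j hj1 hj2 hi2
  · intro i j hj1 hj2 hi2
    by_cases c : i = m
    · subst c
      rw [toggle_of_ne X (show i + 1 ≠ i by omega), toggle_of_ne X (show i + 1 ≠ i by omega)]
      exact ⟨(key j hj1 hj2).1, (key j hj1 hj2).2.2.1⟩
    · rw [toggle_of_ne X c]
      by_cases c' : i + 1 = m
      · have e1 := key j hj1 (by omega)
        have e2 := key (j + 1) (by omega) (by omega)
        rw [show m - 1 = i by omega] at e1 e2
        rw [c']
        exact ⟨e1.2.2.2 (by omega), by simpa using e2.2.1 (by omega)⟩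
      · rw [toggle_of_ne X c', toggle_of_ne X c']
        exact hi i j hj1 hj2 hi2

theorem omegaMap_isGT {n : ℕ} {X : Arr} (hX : IsGT n X) :
    ∀ m, m + 1 ≤ n → IsGT n (omegaMap m X)
  | 0, _ => hX
  | m + 1, h => toggle_isGT (omegaMap_isGT hX m (by omega)) (by omega) h

theorem IsGT.mono {n m : ℕ} {X : Arr} (hX : IsGT n X) (h : m ≤ n) : IsGT m X :=
  ⟨fun i j a b c => hX.1 i j a b (c.trans h), fun i j a b c => hX.2 i j a b (c.trans h)⟩

/-- `S` (for size `m`) preserves GT triangles of size `n ≥ m`. -/
theorem schutz_isGT {n : ℕ} : ∀ (m : ℕ) (X : Arr), IsGT n X → m ≤ n → IsGT n (schutz m X)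
  | 0, _, hX, _ => hX
  | m + 1, X, hX, h => schutz_isGT m _ (omegaMap_isGT hX m h) (by omega)

/-! ### The last-passage recursion -/

/-- last-passage values -/
def VB (B : Arr) : ℕ → ℕ → ℤ
  | 0, _ => B 0 0
  | c + 1, 0 => VB B c 0 + B (c + 1) 0 - B c 1
  | c + 1, r + 1 => max (VB B (c + 1) r) (VB B c (r + 1) + B (c + 1) (r + 1) - B c (r + 2))

/-- The last-passage values are transported by a promotion step. -/
theorem VB_promotion (N : ℕ) (B B' M : Arr)
    (h0 : ∀ r, r + 2 ≤ N → B' 0 r = M 0 r + B 0 r - B 0 (r + 1))
    (h1 : ∀ c r, c + r + 3 ≤ N →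
      B' (c + 1) r = M (c + 1) r + min (B (c + 1) r) (B' c (r + 1)) - B (c + 1) (r + 1))
    (h2 : ∀ c r, c + r + 3 ≤ N → M c r = max (B (c + 1) r) (B' c (r + 1)))
    (h3 : ∀ c r, c + r + 2 ≤ N → B (c + 1) r ≤ M c r) :
    ∀ c r, c + r + 2 ≤ N → VB B' c r = max (VB B (c + 1) r) (VB B c r - B c (r + 1) + M c r) := by
  have e00 : ∀ A : Arr, ∀ r, VB A 0 r = A 0 0 := fun A r => by simp [VB]
  have e10 : ∀ A : Arr, ∀ c, VB A (c + 1) 0 = VB A c 0 + A (c + 1) 0 - A c 1 :=
    fun A c => by simp [VB]
  have e11 : ∀ A : Arr, ∀ c r, VB A (c + 1) (r + 1) =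
      max (VB A (c + 1) r) (VB A c (r + 1) + A (c + 1) (r + 1) - A c (r + 2)) :=
    fun A c r => by rw [VB]
  intro c
  induction c with
  | zero =>
      intro r
      induction r with
      | zero =>
          intro h
          have a1 : B' 0 0 = M 0 0 + B 0 0 - B 0 1 := h0 0 (by omega)
          have a2 : B 1 0 ≤ M 0 0 := h3 0 0 (by omega)
          have a3 : VB B 1 0 = VB B 0 0 + B 1 0 - B 0 1 := e10 B 0
          have a4 := e00 B 0
          show VB B' 0 0 = max (VB B 1 0) (VB B 0 0 - B 0 1 + M 0 0)
          rw [e00]
          omega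
      | succ r ih =>
          intro h
          have a0 : VB B' 0 r = max (VB B 1 r) (VB B 0 r - B 0 (r + 1) + M 0 r) := ih (by omega)
          have a1 : B' 0 (r + 1) = M 0 (r + 1) + B 0 (r + 1) - B 0 (r + 2) :=
            h0 (r + 1) (by omega)
          have a2 : M 0 r = max (B 1 r) (B' 0 (r + 1)) := h2 0 r (by omega)
          have a3 : B 1 (r + 1) ≤ M 0 (r + 1) := h3 0 (r + 1) (by omega)
          have a4 : VB B 1 (r + 1) = max (VB B 1 r) (VB B 0 (r + 1) + B 1 (r + 1) - B 0 (r + 2)) :=
            e11 B 0 r
          show VB B' 0 (r + 1) = max (VB B 1 (r + 1)) (VB B 0 (r + 1) - B 0 (r + 2) + M 0 (r + 1))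
          have g0 := e00 B r
          have g1 := e00 B (r + 1)
          have g2 := e00 B' r
          have g3 := e00 B' (r + 1)
          have a5 : B 1 r ≤ M 0 r := by omega
          -- `VB B 1 r` dominates the path through `B 1 r`
          have a6 : B 0 0 + B 1 r - B 0 (r + 1) ≤ VB B 1 r := by
            cases r with
            | zero =>
                have : VB B 1 0 = VB B 0 0 + B 1 0 - B 0 1 := e10 B 0
                show B 0 0 + B 1 0 - B 0 1 ≤ VB B 1 0
                omega
            | succ r =>
                have : VB B 1 (r + 1) = max (VB B 1 r)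
                  (VB B 0 (r + 1) + B 1 (r + 1) - B 0 (r + 2)) := e11 B 0 r
                show B 0 0 + B 1 (r + 1) - B 0 (r + 2) ≤ VB B 1 (r + 1)
                omega
          omega
  | succ c ihc =>
      intro r
      induction r with
      | zero =>
          intro h
          have a0 : VB B' c 0 = max (VB B (c + 1) 0) (VB B c 0 - B c 1 + M c 0) :=
            ihc 0 (by omega)
          have a1 : B' (c + 1) 0 = M (c + 1) 0 + min (B (c + 1) 0) (B' c 1) - B (c + 1) 1 :=
            h1 c 0 (by omega)
          have a2 : M c 0 = max (B (c + 1) 0) (B' c 1) := h2 c 0 (by omega)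
          have a3 : B (c + 2) 0 ≤ M (c + 1) 0 := h3 (c + 1) 0 (by omega)
          have a4 : VB B (c + 2) 0 = VB B (c + 1) 0 + B (c + 2) 0 - B (c + 1) 1 := e10 B (c + 1)
          have a5 := e10 B c
          have a6 := e10 B' c
          show VB B' (c + 1) 0 = max (VB B (c + 2) 0) (VB B (c + 1) 0 - B (c + 1) 1 + M (c + 1) 0)
          omega
      | succ r ih =>
          intro h
          have a0 : VB B' (c + 1) r =
            max (VB B (c + 2) r) (VB B (c + 1) r - B (c + 1) (r + 1) + M (c + 1) r) :=
            ih (by omega)
          have b0 : VB B' c (r + 1) =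
            max (VB B (c + 1) (r + 1)) (VB B c (r + 1) - B c (r + 2) + M c (r + 1)) :=
            ihc (r + 1) (by omega)
          have a1 : B' (c + 1) (r + 1) =
            M (c + 1) (r + 1) + min (B (c + 1) (r + 1)) (B' c (r + 2)) - B (c + 1) (r + 2) :=
            h1 c (r + 1) (by omega)
          have a2 : M c (r + 1) = max (B (c + 1) (r + 1)) (B' c (r + 2)) := h2 c (r + 1) (by omega)
          have a3 : B (c + 2) (r + 1) ≤ M (c + 1) (r + 1) := h3 (c + 1) (r + 1) (by omega)
          have a4 : M (c + 1) r = max (B (c + 2) r) (B' (c + 1) (r + 1)) := h2 (c + 1) r (by omega)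
          have c1 : VB B (c + 2) (r + 1) =
            max (VB B (c + 2) r) (VB B (c + 1) (r + 1) + B (c + 2) (r + 1) - B (c + 1) (r + 2)) :=
            e11 B (c + 1) r
          have c2 := e11 B c r
          have c3 := e11 B' c r
          have c4 : VB B (c + 1) r + B (c + 2) r - B (c + 1) (r + 1) ≤ VB B (c + 2) r := by
            cases r with
            | zero =>
                have : VB B (c + 2) 0 = VB B (c + 1) 0 + B (c + 2) 0 - B (c + 1) 1 :=
                  e10 B (c + 1)
                show VB B (c + 1) 0 + B (c + 2) 0 - B (c + 1) 1 ≤ VB B (c + 2) 0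
                omega
            | succ r =>
                have : VB B (c + 2) (r + 1) = max (VB B (c + 2) r)
                  (VB B (c + 1) (r + 1) + B (c + 2) (r + 1) - B (c + 1) (r + 2)) := e11 B (c + 1) r
                show VB B (c + 1) (r + 1) + B (c + 2) (r + 1) - B (c + 1) (r + 2) ≤
                  VB B (c + 2) (r + 1)
                omega
          show VB B' (c + 1) (r + 1) = max (VB B (c + 2) (r + 1))
            (VB B (c + 1) (r + 1) - B (c + 1) (r + 2) + M (c + 1) (r + 1))
          omega

/-- Re-indexing of an array for a triangle of size `n`: `c` is the index of the diagonal and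
`r` the distance of the row from the top row. -/
def Bof (n : ℕ) (X : Arr) : Arr := fun c r => X (n - r) (n - r - c)

/-- The right-most diagonal of `S X` as a last-passage value. -/
theorem schutz_diag : ∀ (n : ℕ) (X : Arr) (j : ℕ), 1 ≤ j → j ≤ n →
    schutz n X j j = VB (Bof n X) (n - j) (j - 1)
  | 0, _, j, h1, h2 => by omega
  | n + 1, X, j, h1, h2 => by
      by_cases hj : j = n + 1
      · subst hj
        rw [schutz_of_ge _ _ _ _ le_rfl]
        simp [VB, Bof]
      · have ih := schutz_diag n (omegaMap n X) j h1 (by omega)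
        simp only [schutz]
        rw [ih]
        set X' := omegaMap n X with hX'
        -- the first (max) term of the toggles
        let M : Arr := fun c r =>
          if c + r + 2 = n + 1 then Bof (n + 1) X (c + 1) r
          else max (Bof (n + 1) X (c + 1) r) (Bof n X' c (r + 1))
        have key := VB_promotion (n + 1) (Bof (n + 1) X) (Bof n X') M ?_ ?_ ?_ ?_ (n - j) (j - 1)
          (by omega)
        · rw [key]
          have e : n + 1 - j = n - j + 1 := by omega
          rw [e]
          apply max_eq_left
          have hM : M (n - j) (j - 1) = Bof (n + 1) X (n - j + 1) (j - 1) := by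
            simp only [M]
            rw [if_pos (by omega)]
          rw [hM]
          by_cases hj1 : j = 1
          · subst hj1
            simp only [VB, Nat.sub_self]
            simp only [zero_add]
            omega
          · obtain ⟨r, rfl⟩ : ∃ r, j = r + 2 := ⟨j - 2, by omega⟩
            have e2 : r + 2 - 1 = r + 1 := by omega
            rw [e2]
            simp only [VB]
            have e3 : r + 1 + 1 = r + 2 := rfl
            rw [e3]
            omega
        · intro r hr
          have hrec := omegaMap_rec n X (n - r - 1) (n - r) (by omega) (by omega) (by omega)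
          rw [show n - r - 1 + 1 = n - r by omega, show n - r - 1 + 2 = n + 1 - r by omega] at hrec
          simp only [Bof, M]
          rw [show n - r - 0 = n - r by omega, hX', hrec]
          rw [if_pos rfl]
          rw [show n - r + 1 = n + 1 - r by omega]
          rw [show n + 1 - r - 0 = n + 1 - r by omega, show n + 1 - (r + 1) = n - r by omega,
            show n - r - 0 = n - r by omega, show n + 1 - r - (0 + 1) = n - r by omega,
            show n - (r + 1) = n - r - 1 by omega, show n - r - 1 - 0 = n - r - 1 by omega]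
          by_cases c1 : n - r = 1
          · rw [if_pos c1, if_pos (by omega)]
          · rw [if_neg c1, if_neg (by omega)]
        · intro c r hr
          have hrec := omegaMap_rec n X (n - r - 1) (n - r - (c + 1)) (by omega) (by omega)
            (by omega)
          rw [show n - r - 1 + 1 = n - r by omega, show n - r - 1 + 2 = n + 1 - r by omega] at hrec
          simp only [Bof, M]
          rw [hX', hrec]
          rw [if_neg (show ¬ (n - r - (c + 1) = n - r) by omega)]
          rw [show n + 1 - r - (c + 1 + 1) = n - r - (c + 1) by omega,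
            show n - (r + 1) = n - r - 1 by omega,
            show n - r - 1 - (c + 1) = n - r - (c + 1) - 1 by omega,
            show n + 1 - r - (c + 1) = n - r - (c + 1) + 1 by omega,
            show n - r - 1 - c = n - r - (c + 1) by omega,
            show n + 1 - (r + 1) = n - r by omega]
          by_cases c1 : n - r - (c + 1) = 1
          · rw [if_pos c1, if_pos (by omega)]
          · rw [if_neg c1, if_neg (by omega)]
        · intro c r hr
          simp only [M]
          rw [if_neg (by omega)]
        · intro c r hr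
          simp only [M]
          split_ifs
          · exact le_rfl
          · exact le_max_left _ _

end Pool.Agent.Lib.MP_b6786a_co
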