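import Pool.Agent.Lib.MP_b6786a_co.Rows
import Pool.Agent.Lib.MP_b6786a_co.Schutz

/-!
# Trapezoids as lists of rows
-/

set_option autoImplicit false

namespace Pool.Agent.Lib.MP_b6786a_co

/-! ### index-wise forms of the predicates on lists -/

/-- row `i` of a list -/
def rw' (l : List Row) (i : ℕ) : Row := l.getD i (fun _ => 0)

@[simp] theorem rw'_zero (x : Row) (l : List Row) : rw' (x :: l) 0 = x := rfl
@[simp] theorem rw'_succ (x : Row) (l : List Row) (i : ℕ) : rw' (x :: l) (i + 1) = rw' l i := rfl

theorem TL_iff {M : ℕ} {t : Row} {κ : ℤ} : ∀ (l : List Row) (s : ℕ), TL s M t κ l ↔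
    (∀ i, i < l.length → (∀ b, rw' l i b ≤ rw' l i (b + 1)) ∧ rw' l i 0 = κ ∧
      (∀ b, M ≤ b → rw' l i b = t b)) ∧
    (∀ i, i + 1 < l.length → (∀ b, rw' l i b ≤ rw' l (i + 1) b) ∧
      (∀ b, b ≤ s + i + 1 → rw' l i b = rw' l (i + 1) b))
  | [], s => by simp [TL]
  | [x], s => by
      constructor
      · intro h
        refine ⟨?_, ?_⟩
        · intro i hi
          have : i = 0 := by simpa using hi
          subst this
          exact h
        · intro i hi
          simp at hi
      · intro h
        exact h.1 0 (by simp)
  | x :: y :: l, s => by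
      have ih := TL_iff (y :: l) (s + 1) (M := M) (t := t) (κ := κ)
      constructor
      · rintro ⟨h1, h2, h3, h4, h5, h6⟩
        obtain ⟨i1, i2⟩ := ih.mp h6
        refine ⟨?_, ?_⟩
        · intro i hi
          cases i with
          | zero => exact ⟨h1, h2, h3⟩
          | succ i =>
              simp only [rw'_succ]
              exact i1 i (by simpa using hi)
        · intro i hi
          cases i with
          | zero =>
              refine ⟨h4, ?_⟩
              intro b hb
              exact h5 b (by omega)
          | succ i =>
              obtain ⟨j1, j2⟩ := i2 i (by simpa using hi)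
              refine ⟨j1, ?_⟩
              intro b hb
              exact j2 b (by omega)
      · rintro ⟨h1, h2⟩
        obtain ⟨a1, a2, a3⟩ := h1 0 (by simp)
        obtain ⟨b1, b2⟩ := h2 0 (by simp)
        refine ⟨a1, a2, a3, b1, ?_, ih.mpr ⟨?_, ?_⟩⟩
        · intro b hb
          exact b2 b (by omega)
        · intro i hi
          exact h1 (i + 1) (by simpa using hi)
        · intro i hi
          obtain ⟨j1, j2⟩ := h2 (i + 1) (by simpa using hi)
          refine ⟨j1, ?_⟩
          intro b hb
          exact j2 b (by omega)

theorem YL_iff {κ : ℤ} : ∀ (l : List Row) (M : ℕ) (t : Row), YL M t κ l ↔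
    (∀ i, i < l.length → (∀ b, rw' l i b ≤ rw' l i (b + 1)) ∧ rw' l i 0 = κ) ∧
    (0 < l.length → ∀ b, M ≤ b → rw' l 0 b = t b) ∧
    (∀ i, i + 1 < l.length → (∀ b, rw' l (i + 1) b ≤ rw' l i b) ∧
      (∀ b, M - (i + 1) ≤ b → rw' l (i + 1) b = rw' l i b))
  | [], M, t => by simp [YL]
  | [x], M, t => by
      constructor
      · intro h
        refine ⟨?_, ?_, ?_⟩
        · intro i hi
          have : i = 0 := by simpa using hi
          subst this
          exact ⟨h.1, h.2.1⟩
        · intro _
          exact h.2.2
        · intro i hi
          simp at hi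
      · intro h
        exact ⟨(h.1 0 (by simp)).1, (h.1 0 (by simp)).2, h.2.1 (by simp)⟩
  | x :: y :: l, M, t => by
      have ih := YL_iff (y :: l) (M - 1) x (κ := κ)
      constructor
      · rintro ⟨h1, h2, h3, h4, h6⟩
        obtain ⟨i1, i2, i3⟩ := ih.mp h6
        refine ⟨?_, fun _ => h3, ?_⟩
        · intro i hi
          cases i with
          | zero => exact ⟨h1, h2⟩
          | succ i =>
              simp only [rw'_succ]
              exact i1 i (by simpa using hi)
        · intro i hi
          cases i with
          | zero =>
              refine ⟨h4, ?_⟩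
              intro b hb
              exact i2 (by simp) b (by omega)
          | succ i =>
              obtain ⟨j1, j2⟩ := i3 i (by simpa using hi)
              refine ⟨j1, ?_⟩
              intro b hb
              exact j2 b (by omega)
      · rintro ⟨h1, h2, h3⟩
        obtain ⟨a1, a2⟩ := h1 0 (by simp)
        obtain ⟨b1, b2⟩ := h3 0 (by simp)
        refine ⟨a1, a2, h2 (by simp), b1, ih.mpr ⟨?_, ?_, ?_⟩⟩
        · intro i hi
          exact h1 (i + 1) (by simpa using hi)
        · intro _ b hb
          exact b2 b (by omega)
        · intro i hi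
          obtain ⟨j1, j2⟩ := h3 (i + 1) (by simpa using hi)
          refine ⟨j1, ?_⟩
          intro b hb
          exact j2 b (by omega)

theorem rw'_map {f : ℕ → Row} {k i : ℕ} (hi : i < k) : rw' ((List.range k).map f) i = f i := by
  simp [rw', List.getD, List.getElem?_map, List.getElem?_range hi]

theorem list_ext_rw' {l l' : List Row} (h : l.length = l'.length)
    (h' : ∀ i, i < l.length → rw' l i = rw' l' i) : l = l' := by
  apply List.ext_getElem h
  intro i h1 h2
  have := h' i h1
  simpa [rw', List.getD, List.getElem?_eq_getElem h1, List.getElem?_eq_getElem h2] using this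

/-! ### left trapezoids -/

/-- Row `a` of the list attached to an array (left trapezoids). -/
def rowL (n : ℕ) (X : Arr) (a : ℕ) : Row := fun b =>
  if b = 0 then 1 else if n < b then (b : ℤ) else if b ≤ a then X n b else X (n + 1 + a - b) (a + 1)

/-- The list attached to an array (left trapezoids). -/
def toL (n k : ℕ) (X : Arr) : List Row := (List.range k).map (rowL n X)

/-- The array attached to a list (left trapezoids). -/
def ofL (n k : ℕ) (xs : List Row) : Arr := fun i j => rw' xs (min j k - 1) (n + j - i)

theorem gt_row {n : ℕ} {X : Arr} (h : IsGT n X) {i j : ℕ} (h1 : 1 ≤ j) (h2 : j + 1 ≤ i)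
    (h3 : i ≤ n) : X i j ≤ X i (j + 1) := by
  obtain ⟨i, rfl⟩ : ∃ i', i = i' + 1 := ⟨i - 1, by omega⟩
  have := h.2 i j h1 (by omega) h3
  omega

theorem gt_diag_top {n : ℕ} {X : Arr} (h : IsGT n X) : ∀ d i, i + d = n → 1 ≤ i →
    X i i ≤ X n n
  | 0, i, h1, _ => by
      have : i = n := by omega
      rw [this]
  | d + 1, i, h1, h2 => by
      have := gt_diag_top h d (i + 1) (by omega) (by omega)
      have := (h.2 i i h2 le_rfl (by omega)).2
      omega

/-- values of `rowL` -/
theorem rowL_zero (n : ℕ) (X : Arr) (a : ℕ) : rowL n X a 0 = 1 := by simp [rowL]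

theorem rowL_big {n : ℕ} (X : Arr) (a : ℕ) {b : ℕ} (h : n < b) : rowL n X a b = b := by
  simp only [rowL]; rw [if_neg (by omega), if_pos h]

theorem rowL_low {n : ℕ} (X : Arr) {a b : ℕ} (h1 : 1 ≤ b) (h2 : b ≤ n) (h3 : b ≤ a) :
    rowL n X a b = X n b := by
  simp only [rowL]; rw [if_neg (by omega), if_neg (by omega), if_pos h3]

theorem rowL_mid {n : ℕ} (X : Arr) {a b : ℕ} (h2 : b ≤ n) (h3 : a + 1 ≤ b) :
    rowL n X a b = X (n + 1 + a - b) (a + 1) := by
  simp only [rowL]; rw [if_neg (by omega), if_neg (by omega), if_neg (by omega)]

theorem rowL_diag {n : ℕ} (X : Arr) {a b : ℕ} (h1 : 1 ≤ b) (h2 : b ≤ n) (h3 : b ≤ a + 1) :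
    rowL n X a b = X n b := by
  by_cases h : b = a + 1
  · subst h
    rw [rowL_mid X h2 le_rfl]
    congr 1
    omega
  · exact rowL_low X h1 h2 (by omega)

theorem toL_TL {n k : ℕ} {X : Arr} (hX : IsGT n X) (hk : k ≤ n) (htop : X n n ≤ n + 1) :
    TL 0 (n + 1) (fun b => (b : ℤ)) 1 (toL n k X) := by
  rw [TL_iff]
  have hlen : (toL n k X).length = k := by simp [toL]
  rw [hlen]
  have hr : ∀ i, i < k → rw' (toL n k X) i = rowL n X i := fun i hi => rw'_map hi
  refine ⟨?_, ?_⟩
  · intro i hi
    rw [hr i hi]
    refine ⟨?_, rowL_zero n X i, fun b hb => rowL_big X i (by omega)⟩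
    intro b
    rcases Nat.lt_or_ge n b with hb | hb
    · rw [rowL_big X i hb, rowL_big X i (by omega)]
      push_cast; omega
    · rcases Nat.eq_or_lt_of_le hb with hb' | hb'
      · subst hb'
        rw [rowL_big X i (show b < b + 1 by omega)]
        by_cases hb0 : b = 0
        · omega
        · rw [rowL_mid X le_rfl (by omega)]
          have := gt_diag_top hX (b - (i + 1)) (i + 1) (by omega) (by omega)
          rw [show b + 1 + i - b = i + 1 by omega]
          push_cast; omega
      · by_cases hb0 : b = 0
        · subst hb0
          rw [rowL_zero, rowL_diag X (by omega) (by omega) (by omega)]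
          have := hX.1 n (0 + 1) (by omega) (by omega) le_rfl
          omega
        · by_cases hc : b ≤ i
          · rw [rowL_low X (by omega) hb hc, rowL_diag X (by omega) (by omega) (by omega)]
            exact gt_row hX (by omega) (by omega) le_rfl
          · rw [rowL_mid X hb (by omega), rowL_mid X hb' (by omega)]
            have := (hX.2 (n + 1 + i - (b + 1)) (i + 1) (by omega) (by omega) (by omega)).1
            rwa [show n + 1 + i - (b + 1) + 1 = n + 1 + i - b by omega] at this
  · intro i hi
    rw [hr i (by omega), hr (i + 1) hi]
    refine ⟨?_, ?_⟩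
    · intro b
      by_cases hb0 : b = 0
      · subst hb0; rw [rowL_zero, rowL_zero]
      rcases Nat.lt_or_ge n b with hb | hb
      · rw [rowL_big X i hb, rowL_big X _ hb]
      · by_cases hc : b ≤ i + 1
        · rw [rowL_diag X (by omega) hb hc, rowL_diag X (by omega) hb (by omega)]
        · rw [rowL_mid X hb (by omega), rowL_mid X hb (by omega)]
          have := (hX.2 (n + 1 + i - b) (i + 1) (by omega) (by omega) (by omega)).2
          rwa [show n + 1 + i - b + 1 = n + 1 + (i + 1) - b by omega] at this
    · intro b hb
      by_cases hb0 : b = 0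
      · subst hb0; rw [rowL_zero, rowL_zero]
      rcases Nat.lt_or_ge n b with hb' | hb'
      · rw [rowL_big X i hb', rowL_big X _ hb']
      · rw [rowL_diag X (by omega) hb' (by omega), rowL_diag X (by omega) hb' (by omega)]

/-- Splitting off the `a`-th row. -/
theorem toL_drop {n k : ℕ} (X : Arr) {a : ℕ} (ha : a < k) :
    (toL n k X).drop a = rowL n X a :: (toL n k X).drop (a + 1) := by
  have hlen : (toL n k X).length = k := by simp [toL]
  rw [List.drop_eq_getElem_cons (by omega)]
  simp [toL]

theorem TL_drop {M : ℕ} {t : Row} {κ : ℤ} : ∀ (a : ℕ) (l : List Row) (s : ℕ), TL s M t κ l →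
    TL (s + a) M t κ (l.drop a)
  | 0, l, s, h => h
  | a + 1, [], s, h => by simp [TL]
  | a + 1, [x], s, h => by simp [TL]
  | a + 1, x :: y :: l, s, h => by
      have := TL_drop a (y :: l) (s + 1) h.2.2.2.2.2
      rw [show s + (a + 1) = s + 1 + a by omega]
      exact this

theorem VB_ge {n : ℕ} {X : Arr} (hX : IsGT n X) : ∀ c r, c + r + 1 ≤ n →
    Bof n X c r ≤ VB (Bof n X) c r := by
  have hm : ∀ c r, c + r + 2 ≤ n → Bof n X c (r + 1) ≤ Bof n X c r := by
    intro c r h
    have := (hX.2 (n - (r + 1)) (n - (r + 1) - c) (by omega) (by omega) (by omega)).2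
    rw [show n - (r + 1) + 1 = n - r by omega, show n - (r + 1) - c + 1 = n - r - c by omega]
      at this
    exact this
  have hd : ∀ c r, c + r + 2 ≤ n → Bof n X (c + 1) r ≤ Bof n X c (r + 1) := by
    intro c r h
    have := (hX.2 (n - (r + 1)) (n - (r + 1) - c) (by omega) (by omega) (by omega)).1
    rw [show n - (r + 1) + 1 = n - r by omega,
      show n - (r + 1) - c = n - r - (c + 1) by omega] at this
    have e : Bof n X c (r + 1) = X (n - (r + 1)) (n - r - (c + 1)) := by
      simp only [Bof]; congr 1; omega
    rw [e]
    exact this
  intro c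
  induction c with
  | zero =>
      intro r
      induction r with
      | zero => intro _; simp [VB]
      | succ r ih =>
          intro h
          have h1 := ih (by omega)
          have h2 := hm 0 r (by omega)
          simp only [VB] at *
          omega
  | succ c ihc =>
      intro r
      induction r with
      | zero =>
          intro h
          have h1 := ihc 0 (by omega)
          have h2 : Bof n X c 1 ≤ Bof n X c 0 := hm c 0 (by omega)
          simp only [VB]
          omega
      | succ r ih =>
          intro h
          have h1 := ihc (r + 1) (by omega)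
          have h2 : Bof n X c (r + 2) ≤ Bof n X c (r + 1) := hm c (r + 1) (by omega)
          simp only [VB]
          omega

/-- The last-passage vector of the rows from row `a` on is at most the last-passage value of the
triangle; and they agree if the rows from row `k - 1` on are constant. -/
theorem V_le_VB {n k : ℕ} {X : Arr} (hX : IsGT n X) (hk1 : 1 ≤ k) (hk : k ≤ n)
    (htop : X n n ≤ n + 1) :
    ∀ d a, a + d + 1 = k → ∀ b, a + 1 ≤ b → b ≤ n →
      V ((toL n k X).drop a) b ≤ VB (Bof n X) (n - b) (b - 1 - a) ∧
      ((∀ i j, k + 1 ≤ j → j ≤ i → i ≤ n → X i j = X (i - 1) (j - 1)) →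
        V ((toL n k X).drop a) b = VB (Bof n X) (n - b) (b - 1 - a)) := by
  have hTL := toL_TL (k := k) hX hk htop
  intro d
  induction d with
  | zero =>
      intro a ha b hb1 hb2
      have hlen : (toL n k X).length = k := by simp [toL]
      have e : (toL n k X).drop a = [rowL n X a] := by
        rw [toL_drop X (by omega), List.drop_eq_nil_of_le (by omega)]
      rw [e]
      simp only [V]
      rw [rowL_mid X hb2 hb1]
      have eB : X (n + 1 + a - b) (a + 1) = Bof n X (n - b) (b - 1 - a) := by
        simp only [Bof]
        rw [show n - (b - 1 - a) = n + 1 + a - b by omega,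
          show n + 1 + a - b - (n - b) = a + 1 by omega]
      rw [eB]
      refine ⟨VB_ge hX _ _ (by omega), ?_⟩
      intro hc
      -- constancy
      have hconst : ∀ c r, c + r + 1 + k ≤ n → Bof n X c (r + 1) = Bof n X c r := by
        intro c r h
        have := hc (n - r) (n - r - c) (by omega) (by omega) (by omega)
        simp only [Bof]
        rw [this]
        congr 1 <;> omega
      have main : ∀ c r, c + r + k ≤ n → VB (Bof n X) c r = Bof n X c r := by
        intro c
        induction c with
        | zero =>
            intro r
            induction r with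
            | zero => intro _; simp [VB]
            | succ r ih =>
                intro h
                have h1 := ih (by omega)
                have h2 := hconst 0 r (by omega)
                simp only [VB] at *
                omega
        | succ c ihc =>
            intro r
            induction r with
            | zero =>
                intro h
                have h1 := ihc 0 (by omega)
                have h2 : Bof n X c 1 = Bof n X c 0 := hconst c 0 (by omega)
                simp only [VB]
                omega
            | succ r ih =>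
                intro h
                have h1 := ihc (r + 1) (by omega)
                have h2 : Bof n X c (r + 2) = Bof n X c (r + 1) := hconst c (r + 1) (by omega)
                have h3 := hconst (c + 1) r (by omega)
                have h4 := ih (by omega)
                simp only [VB]
                omega
      exact (main _ _ (by omega)).symm
  | succ d ih =>
      intro a ha b hb1 hb2
      have ih' := ih (a + 1) (by omega)
      have e1 : (toL n k X).drop a = rowL n X a :: (toL n k X).drop (a + 1) :=
        toL_drop X (by omega)
      have e2 : (toL n k X).drop (a + 1) = rowL n X (a + 1) :: (toL n k X).drop (a + 1 + 1) :=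
        toL_drop X (by omega)
      have hT1 : TL (0 + (a + 1)) (n + 1) (fun b => (b : ℤ)) 1
          (rowL n X (a + 1) :: (toL n k X).drop (a + 1 + 1)) := by
        rw [← e2]; exact TL_drop (a + 1) _ 0 hTL
      have hT0 : TL (0 + a) (n + 1) (fun b => (b : ℤ)) 1
          (rowL n X a :: rowL n X (a + 1) :: (toL n k X).drop (a + 1 + 1)) := by
        rw [← e2, ← e1]; exact TL_drop a _ 0 hTL
      have hVdef : ∀ b, V ((toL n k X).drop a) b =
          max (V ((toL n k X).drop (a + 1)) b)
            (V ((toL n k X).drop (a + 1)) (b + 1) - rowL n X a (b + 1) + rowL n X a b) := by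
        intro b
        rw [e1, e2]
        rfl
      have hge : ∀ b, rowL n X (a + 1) b ≤ V ((toL n k X).drop (a + 1)) b := by
        intro b
        rw [e2]
        exact head_le_V _ _ _ _ _ _ hT1 b
      have hxy : ∀ b, rowL n X a b ≤ rowL n X (a + 1) b := hT0.2.2.2.1
      rw [hVdef b]
      rcases Nat.eq_or_lt_of_le hb2 with hbn | hbn
      · -- b = n
        subst hbn
        have t1 : V ((toL b k X).drop (a + 1)) (b + 1) = ((b + 1 : ℕ) : ℤ) := by
          rw [e2]
          exact V_tail _ _ _ _ _ _ hT1 (b + 1) le_rfl
        have t2 : rowL b X a (b + 1) = ((b + 1 : ℕ) : ℤ) := rowL_big X a (by omega)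
        have t3 := hge b
        have t4 := hxy b
        obtain ⟨g1, g2⟩ := ih' b (by omega) le_rfl
        have t5 : ∀ r, VB (Bof b X) (b - b) r = Bof b X 0 0 := by
          intro r
          rw [Nat.sub_self]
          simp [VB]
        rw [t5] at g1 g2 ⊢
        refine ⟨by omega, ?_⟩
        intro hc
        have g3 := g2 hc
        omega
      · -- b < n
        obtain ⟨f1, f2⟩ := ih' (b + 1) (by omega) (by omega)
        have eb : rowL n X a b = Bof n X (n - b) (b - 1 - a) := by
          rw [rowL_mid X hb2 hb1]
          simp only [Bof]
          rw [show n - (b - 1 - a) = n + 1 + a - b by omega,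
            show n + 1 + a - b - (n - b) = a + 1 by omega]
        have eb1 : rowL n X a (b + 1) = Bof n X (n - b - 1) (b - a) := by
          rw [rowL_mid X (by omega) (by omega)]
          simp only [Bof]
          rw [show n - (b - a) = n + 1 + a - (b + 1) by omega,
            show n + 1 + a - (b + 1) - (n - b - 1) = a + 1 by omega]
        obtain ⟨c, hc⟩ : ∃ c, n - b = c + 1 := ⟨n - b - 1, by omega⟩
        rw [show n - (b + 1) = c by omega, show b + 1 - 1 - (a + 1) = b - 1 - a by omega] at f1 f2
        rw [hc] at eb ⊢
        rw [show n - b - 1 = c by omega] at eb1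
        by_cases hba : b = a + 1
        · subst hba
          have z1 : V ((toL n k X).drop (a + 1)) (a + 1) = rowL n X (a + 1) (a + 1) := by
            rw [e2]
            exact V_eq_head _ _ _ _ _ _ hT1 (a + 1) (by omega)
          have z2 : rowL n X a (a + 1) = rowL n X (a + 1) (a + 1) := hT0.2.2.2.2.1 _ (by omega)
          have z3 := hge (a + 1 + 1)
          have z4 := hxy (a + 1 + 1)
          rw [show a + 1 - 1 - a = 0 by omega] at f1 f2 eb ⊢
          rw [show a + 1 - a = 1 by omega] at eb1
          simp only [VB]
          refine ⟨by omega, ?_⟩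
          intro hcc
          have f3 := f2 hcc
          omega
        · obtain ⟨g1, g2⟩ := ih' b (by omega) hb2
          obtain ⟨r, hr⟩ : ∃ r, b - 1 - a = r + 1 := ⟨b - 1 - a - 1, by omega⟩
          rw [hc, show b - 1 - (a + 1) = r by omega] at g1 g2
          rw [hr] at f1 f2 eb ⊢
          rw [show b - a = r + 2 by omega] at eb1
          simp only [VB]
          refine ⟨by omega, ?_⟩
          intro hcc
          have f3 := f2 hcc
          have g3 := g2 hcc
          omega

end Pool.Agent.Lib.MP_b6786a_co
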